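import Pool.Agent.H29.FX.TargetsQ
import Pool.Agent.H54.TFX.CLS

/-!
# Near-units, row CLQ: the determinant method for one class
-/

set_option autoImplicit false

open Finset MvPolynomial

namespace Pool.Agent.H79.TFX

open Pool.Agent.H29.FX
open Pool.Agent.H54.TFX (clsBox cls_mem cls_card clsE clsE_apply clsE_inj cls_eval cls_val
  cls_poly cls_mono)

theorem clq_mat (hLCQ : T_LCQ) (hDTD : T_DTD) {n Q j s v r N : ℕ} (L : Tw n) (x₀ : Fin n → ℤ)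
    (hQ : 2 ≤ Q) (hsq : Squarefree Q) (hv : v < j) (hls : ∀ l : ℕ, l.Prime → l ∣ Q → s ≤ l)
    (hr1 : 1 ≤ r) (hr : r + 2 * v * n ≤ s) (hG : Gd L) (hx : ∀ q ∈ L, ((Q : ℤ) ^ j) ^ s ∣ eval x₀ q.1)
    (hJ : ∀ l : ℕ, l.Prime → l ∣ Q → ¬ (l : ℤ) ^ (v + 1) ∣ eval x₀ (TJ L))
    (y : Fin N → Fin n → ℤ) (hy : ∀ k, ∀ q ∈ L, ((Q : ℤ) ^ j) ^ s ∣ eval (y k) q.1)
    (hpy : ∀ k w, (Q : ℤ) ^ (j + (n + 1) * v) ∣ y k w - x₀ w) (f : Fin N → Pl n) :
    (((Q : ℤ) ^ j) ^ r) ^ (N - r ^ (TI L).card) ∣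
      (Matrix.of fun k l => eval (y k) (f l)).det := by
  classical
  have h1 := fun k => hLCQ n Q j s v L x₀ (y k) hQ hsq hv hls hG
    (fun q hq => ⟨hx q hq, hy k q hq⟩) (hpy k) hJ
  choose t ht0 ht using h1
  have hκ : Fintype.card {α // α ∈ clsBox (TI L) r} = r ^ (TI L).card := by
    rw [Fintype.card_coe, cls_card]
  obtain ⟨c, hc⟩ : ∃ c : (Fin n → ℕ) → Fin N → ℤ, ∀ α l, ((c α l : ℤ) : ZMod ((Q ^ j) ^ s)) =
      (∏ w, iv (Q ^ j) s (α w)) *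
        ((eval x₀ (dw (TD L) α (f l)) : ℤ) : ZMod ((Q ^ j) ^ s)) :=
    ⟨fun α l => ZMod.cast ((∏ w, iv (Q ^ j) s (α w)) *
      ((eval x₀ (dw (TD L) α (f l)) : ℤ) : ZMod ((Q ^ j) ^ s))),
      fun α l => ZMod.intCast_zmod_cast _⟩
  have hQ0 : (Q : ℤ) ≠ 0 := by exact_mod_cast (by omega : Q ≠ 0)
  have h2 : ∀ k l, ∃ E : ℤ, eval (y k) (f l) =
      ∑ α : {α // α ∈ clsBox (TI L) r}, (∏ w, ((Q : ℤ) ^ j * t k w) ^ (α.1 w)) * c α.1 l +
        ((Q : ℤ) ^ j) ^ r * E := by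
    intro k l
    have h3 : (((Q : ℤ) ^ (2 * v * n) * (eval (y k) (f l) -
        ∑ α ∈ Fintype.piFinset (fun _ : Fin n => range s),
          (∏ w, ((Q : ℤ) ^ j * t k w) ^ (α w)) * c α l) : ℤ) : ZMod ((Q ^ j) ^ s)) = 0 := by
      have h4 : ∑ α ∈ Fintype.piFinset (fun _ : Fin n => range s),
          (∏ w, ((Q : ZMod ((Q ^ j) ^ s)) ^ j * ((t k w : ℤ) : ZMod ((Q ^ j) ^ s))) ^ (α w)) *
            ((c α l : ℤ) : ZMod ((Q ^ j) ^ s)) =
          ∑ α ∈ Fintype.piFinset (fun _ : Fin n => range s),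
          (∏ w, ((Q : ZMod ((Q ^ j) ^ s)) ^ j * ((t k w : ℤ) : ZMod ((Q ^ j) ^ s))) ^ (α w) *
            iv (Q ^ j) s (α w)) *
            ((eval x₀ (dw (TD L) α (f l)) : ℤ) : ZMod ((Q ^ j) ^ s)) := by
        apply Finset.sum_congr rfl
        intro α _
        rw [hc, Finset.prod_mul_distrib, mul_assoc]
      push_cast
      rw [h4]
      exact ht k (f l)
    have h5 : ((Q : ℤ) ^ j) ^ s ∣ (Q : ℤ) ^ (2 * v * n) * (eval (y k) (f l) -
        ∑ α ∈ Fintype.piFinset (fun _ : Fin n => range s),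
          (∏ w, ((Q : ℤ) ^ j * t k w) ^ (α w)) * c α l) := by
      have h6 := (ZMod.intCast_zmod_eq_zero_iff_dvd _ _).1 h3
      exact_mod_cast h6
    have h7 : j * r + 2 * v * n ≤ j * s := by
      calc j * r + 2 * v * n ≤ j * r + j * (2 * v * n) :=
            Nat.add_le_add_left (Nat.le_mul_of_pos_left _ (by omega)) _
        _ = j * (r + 2 * v * n) := by ring
        _ ≤ j * s := Nat.mul_le_mul_left _ hr
    have hjs : 2 * v * n ≤ j * s := by omega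
    have hjr : j * r ≤ j * s - 2 * v * n := by omega
    have h8 : ((Q : ℤ) ^ j) ^ r ∣ eval (y k) (f l) -
        ∑ α ∈ Fintype.piFinset (fun _ : Fin n => range s),
          (∏ w, ((Q : ℤ) ^ j * t k w) ^ (α w)) * c α l := by
      have h9 : ((Q : ℤ) ^ j) ^ s = (Q : ℤ) ^ (2 * v * n) * (Q : ℤ) ^ (j * s - 2 * v * n) := by
        rw [← pow_mul, ← pow_add]
        congr 1
        omega
      rw [h9] at h5
      have h10 := (mul_dvd_mul_iff_left (pow_ne_zero _ hQ0)).1 h5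
      refine dvd_trans ?_ h10
      rw [← pow_mul]
      exact pow_dvd_pow _ hjr
    have hsub : clsBox (TI L) r ⊆ Fintype.piFinset (fun _ : Fin n => range s) := by
      intro α hα
      rw [Fintype.mem_piFinset]
      intro w
      rw [mem_range]
      by_cases hw : w ∈ TI L
      · have := (cls_mem.1 hα w).1 hw
        omega
      · rw [(cls_mem.1 hα w).2 hw]
        omega
    have h12 : ((Q : ℤ) ^ j) ^ r ∣
        ∑ α ∈ Fintype.piFinset (fun _ : Fin n => range s) \ clsBox (TI L) r,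
          (∏ w, ((Q : ℤ) ^ j * t k w) ^ (α w)) * c α l := by
      apply Finset.dvd_sum
      intro α hα
      rw [Finset.mem_sdiff] at hα
      apply Dvd.dvd.mul_right
      obtain ⟨w, hw⟩ : ∃ w, (w ∈ TI L ∧ r ≤ α w) ∨ (w ∉ TI L ∧ α w ≠ 0) := by
        by_contra hcon
        push Not at hcon
        apply hα.2
        rw [cls_mem]
        intro w
        exact ⟨(hcon w).1, (hcon w).2⟩
      rcases hw with ⟨hw, hw'⟩ | ⟨hw, hw'⟩
      · refine dvd_trans ?_ (Finset.dvd_prod_of_mem _ (mem_univ w))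
        rw [mul_pow]
        exact Dvd.dvd.mul_right (pow_dvd_pow _ hw') _
      · rw [Finset.prod_eq_zero (mem_univ w)]
        · exact dvd_zero _
        · rw [ht0 k w hw, mul_zero, zero_pow hw']
    rw [← Finset.sum_sdiff hsub] at h8
    have h13 := dvd_add h8 h12
    obtain ⟨E, hE⟩ := h13
    refine ⟨E, ?_⟩
    rw [Finset.sum_coe_sort (clsBox (TI L) r) (fun α : Fin n → ℕ =>
        (∏ w, ((Q : ℤ) ^ j * t k w) ^ (α w)) * c α l)]
    linarith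
  choose E hE using h2
  have h4 : (Matrix.of fun k l => eval (y k) (f l)) =
      (Matrix.of fun k (α : {α // α ∈ clsBox (TI L) r}) =>
        ∏ w, ((Q : ℤ) ^ j * t k w) ^ (α.1 w)) *
      (Matrix.of fun (α : {α // α ∈ clsBox (TI L) r}) l => c α.1 l) +
      (((Q : ℤ) ^ j) ^ r) • Matrix.of E := by
    ext k l
    rw [Matrix.add_apply, Matrix.smul_apply, Matrix.mul_apply]
    simp only [Matrix.of_apply, smul_eq_mul]
    exact hE k l
  rw [h4, ← hκ]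
  exact hDTD N _ _ _ _ _ _


theorem clq_one (hLCQ : T_LCQ) (hDTD : T_DTD) (hRNK : T_RNK) (n v k μ : ℕ) (δ : ℝ)
    (hδ : 0 < δ) (hμ1 : 1 ≤ μ) (hμ : 4 ≤ δ * μ) :
    ∃ (B₁ : ℕ) (Y₀ : ℝ), 2 ≤ Y₀ ∧ ∀ (s : ℕ) (Y : ℝ) (L : Tw n) (g : Pl n)
    (i : Fin n) (Q j : ℕ) (x₀ : Fin n → ℤ) (S : Finset (Fin n → ℤ)),
    μ ^ (k + 1) + 2 * v * n ≤ s → Y₀ ≤ Y → 2 ≤ Q → Squarefree Q → v < j → Gd L → i ∈ TI L →
    (∀ l : ℕ, l.Prime → l ∣ Q → s ≤ l) → Y ^ δ ≤ ((Q : ℝ) ^ j) → x₀ ∈ S →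
    (∀ l : ℕ, l.Prime → l ∣ Q → ¬ (l : ℤ) ^ (v + 1) ∣ eval x₀ (TJ ((g, i) :: L))) →
    (∀ y ∈ S, (∀ w, 1 ≤ y w) ∧ ∏ w, (y w : ℝ) ≤ Y ∧
      (∀ w, (Q : ℤ) ^ (j + (n + 1) * v) ∣ y w - x₀ w) ∧ On L y ∧
      ((Q : ℤ) ^ j) ^ s ∣ eval y g) → (TI L).card = k + 1 →
    ∃ G : Pl n, G ≠ 0 ∧ G.vars ⊆ TI L ∧ Cx Y B₁ G ∧ ∀ y ∈ S, eval y G = 0 := by
  obtain ⟨P, hP⟩ : ∃ P, P = 2 * μ ^ k := ⟨_, rfl⟩
  obtain ⟨N, hN⟩ : ∃ N, N = P ^ (k + 1) := ⟨_, rfl⟩
  obtain ⟨N2, hN2⟩ : ∃ N2, N2 = 2 ^ k * μ ^ (k * (k + 1)) := ⟨_, rfl⟩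
  obtain ⟨r, hr⟩ : ∃ r, r = μ ^ (k + 1) := ⟨_, rfl⟩
  have hP1 : 1 ≤ P := by
    rw [hP]
    have := Nat.one_le_pow k μ hμ1
    omega
  have hN1 : 1 ≤ N := by
    rw [hN]
    exact Nat.one_le_pow _ _ hP1
  have hr1 : 1 ≤ r := by
    rw [hr]
    exact Nat.one_le_pow _ _ hμ1
  have hNN : N = 2 * N2 := by
    rw [hN, hP, hN2, mul_pow, ← pow_mul, pow_succ]
    ring
  have hrk : r ^ k ≤ N2 := by
    rw [hr, hN2, ← pow_mul, mul_comm (k + 1) k]
    exact Nat.le_mul_of_pos_left _ (by positivity)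
  refine ⟨1 + P * N + n * P, 2 + (N + 1), ?_, ?_⟩
  · have h2 : (0 : ℝ) ≤ N := Nat.cast_nonneg N
    linarith
  intro s Y L g i Q j x₀ S hs hY hQ hsq hvj hG hi hls hYp hx₀ hJ hS hcard
  have hN0 : (0 : ℝ) ≤ N := Nat.cast_nonneg N
  have hY2 : 2 ≤ Y := by linarith
  have hY1 : 1 ≤ Y := by linarith
  have hY0 : 0 < Y := by linarith
  have hNY : (N : ℝ) < Y := by linarith
  have hQ1 : (1 : ℝ) ≤ Q := by exact_mod_cast (by omega : 1 ≤ Q)
  have hp1' : (1 : ℝ) ≤ (Q : ℝ) ^ j := one_le_pow₀ hQ1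
  have hGd : Gd ((g, i) :: L) := ⟨hi, hG⟩
  have hTI : (TI ((g, i) :: L)).card = k := by
    change ((TI L).erase i).card = k
    rw [Finset.card_erase_of_mem hi, hcard]
    rfl
  -- the monomials
  have hbc : Fintype.card {α // α ∈ clsBox (TI L) P} = N := by
    rw [Fintype.card_coe, cls_card, hcard, hN]
  have e : Fin N ≃ {α // α ∈ clsBox (TI L) P} := (Fintype.equivFinOfCardEq hbc).symm
  have hae : Function.Injective (fun j => (e j).1) :=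
    fun j l h => e.injective (Subtype.ext h)
  have hbox : ∀ j, (e j).1 ∈ clsBox (TI L) P := fun j => (e j).2
  have hle : ∀ j v, (e j).1 v ≤ P - 1 := by
    intro j v
    by_cases hv : v ∈ TI L
    · have := (cls_mem.1 (hbox j) v).1 hv
      omega
    · rw [(cls_mem.1 (hbox j) v).2 hv]
      exact Nat.zero_le _
  have hT1 : (1 : ℝ) ≤ Y ^ (P - 1) := one_le_pow₀ hY1
  have hval : ∀ j, ∀ y ∈ S, |((∏ v, y v ^ (e j).1 v : ℤ) : ℝ)| ≤ Y ^ (P - 1) := by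
    intro j y hy
    exact cls_val (hle j) (hS y hy).1 (hS y hy).2.1
  have hfac : (N.factorial : ℝ) ≤ (N : ℝ) ^ N := by exact_mod_cast Nat.factorial_le_pow N
  have hfac2 : (N.factorial : ℝ) < Y ^ N :=
    lt_of_le_of_lt hfac (pow_lt_pow_left₀ hNY hN0 (by omega))
  have hpow : Y ^ N * (Y ^ (P - 1)) ^ N = Y ^ (P * N) := by
    rw [← pow_mul, ← pow_add]
    congr 1
    obtain ⟨Q, rfl⟩ : ∃ Q, P = Q + 1 := ⟨P - 1, by omega⟩
    simp only [Nat.add_sub_cancel]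
    ring
  have hupp : (N.factorial : ℝ) * (Y ^ (P - 1)) ^ N < Y ^ (P * N) := by
    rw [← hpow]
    exact mul_lt_mul_of_pos_right hfac2 (by positivity)
  have hdet : ∀ y : Fin N → Fin n → ℤ, (∀ l, y l ∈ S) →
      (Matrix.of fun l j => ∏ v, y l v ^ (e j).1 v).det = 0 := by
    intro y hy
    by_contra hne
    have hon : ∀ z ∈ S, ∀ q ∈ ((g, i) :: L : Tw n), ((Q : ℤ) ^ j) ^ s ∣ eval z q.1 := by
      intro z hz q hq
      rcases List.mem_cons.1 hq with rfl | hq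
      · exact (hS z hz).2.2.2.2
      · rw [(hS z hz).2.2.2.1 q hq]
        exact dvd_zero _
    have h1 := clq_mat hLCQ hDTD ((g, i) :: L) x₀ hQ hsq hvj hls hr1 (hr ▸ hs) hGd
      (hon x₀ hx₀) hJ y (fun l => hon _ (hy l)) (fun l w => (hS _ (hy l)).2.2.1 w)
      (fun l => monomial (clsE (e l).1) 1)
    have h2 : (Matrix.of fun (l : Fin N) (j : Fin N) =>
        eval (y l) (monomial (clsE (e j).1) (1 : ℤ))) =
        Matrix.of fun l j => ∏ v, y l v ^ (e j).1 v := by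
      ext l j
      simp only [Matrix.of_apply]
      rw [cls_eval, one_mul]
    rw [h2, hTI] at h1
    have h3 : (((Q : ℤ) ^ j) ^ r) ^ (N - r ^ k) ≤
        |(Matrix.of fun l j => ∏ v, y l v ^ (e j).1 v).det| := by
      apply Int.le_of_dvd (abs_pos.2 hne)
      rw [dvd_abs]
      exact h1
    have h4 : (((Q : ℝ) ^ j) ^ r) ^ (N - r ^ k) ≤
        |((Matrix.of fun l j => ∏ v, y l v ^ (e j).1 v).det : ℝ)| := by exact_mod_cast h3
    have h5 : |((Matrix.of fun l j => ∏ v, y l v ^ (e j).1 v).det : ℝ)| ≤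
        N.factorial * (Y ^ (P - 1)) ^ N := by
      have h6 : (((Matrix.of fun l j => ∏ v, y l v ^ (e j).1 v).det : ℤ) : ℝ) =
          ((Matrix.of fun l j => ∏ v, y l v ^ (e j).1 v).map (Int.castRingHom ℝ)).det := by
        rw [← RingHom.mapMatrix_apply, ← RingHom.map_det]
        rfl
      rw [h6]
      have h7 := Matrix.det_le (A := (Matrix.of fun l j => ∏ v, y l v ^ (e j).1 v).map
        (Int.castRingHom ℝ)) (abv := AbsoluteValue.abs) (x := Y ^ (P - 1)) (fun l j => hval j (y l) (hy l))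
      rw [Fintype.card_fin, nsmul_eq_mul] at h7
      exact h7
    have h8 : Y ^ (P * N) ≤ (((Q : ℝ) ^ j) ^ r) ^ (N - r ^ k) := by
      have h9 : (((Q : ℝ) ^ j) ^ r) ^ N2 ≤ (((Q : ℝ) ^ j) ^ r) ^ (N - r ^ k) :=
        pow_le_pow_right₀ (one_le_pow₀ hp1') (by omega)
      refine le_trans ?_ h9
      rw [← pow_mul]
      calc Y ^ (P * N) = Y ^ (((P * N : ℕ) : ℝ)) := (Real.rpow_natCast _ _).symm
        _ ≤ Y ^ (δ * ((r * N2 : ℕ) : ℝ)) := by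
            apply Real.rpow_le_rpow_of_exponent_le hY1
            rw [hNN, hP, hr]
            push_cast
            have h10 : (0 : ℝ) ≤ (μ : ℝ) ^ k * N2 := by positivity
            calc 2 * (μ : ℝ) ^ k * (2 * N2) = 4 * ((μ : ℝ) ^ k * N2) := by ring
              _ ≤ (δ * μ) * ((μ : ℝ) ^ k * N2) := mul_le_mul_of_nonneg_right hμ h10
              _ = δ * ((μ : ℝ) ^ (k + 1) * N2) := by ring
        _ = (Y ^ δ) ^ (r * N2) := by
            rw [Real.rpow_mul hY0.le, Real.rpow_natCast]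
        _ ≤ ((Q : ℝ) ^ j) ^ (r * N2) := pow_le_pow_left₀ (by positivity) hYp _
    linarith
  obtain ⟨G0, hG0, hG0le, hG0S⟩ := hRNK N (Y ^ (P - 1)) (Fin n → ℤ) S
    (fun j y => ∏ v, y v ^ (e j).1 v) hN1 hT1 hval hdet
  obtain ⟨G, hGne, hGv, hGd, hGn, hGe⟩ := cls_poly hae hG0 hbox
  refine ⟨G, hGne, hGv, ⟨?_, ?_⟩, ?_⟩
  · exact hGd.trans (by omega)
  · calc nm G ≤ ∑ j, |(G0 j : ℝ)| := hGn
      _ ≤ ∑ _j : Fin N, (N.factorial : ℝ) * (Y ^ (P - 1)) ^ N :=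
          Finset.sum_le_sum fun j _ => hG0le j
      _ = N * (N.factorial * (Y ^ (P - 1)) ^ N) := by simp
      _ ≤ Y * Y ^ (P * N) := mul_le_mul hNY.le hupp.le (by positivity) hY0.le
      _ = Y ^ (1 + P * N) := by rw [pow_add, pow_one]
      _ ≤ Y ^ (1 + P * N + n * P) := pow_le_pow_right₀ hY1 (by omega)
  · intro y hy
    rw [hGe]
    exact hG0S y hy


theorem pf_CLQ (hLCQ : T_LCQ) (hDTD : T_DTD) (_hCNT : T_CNT) (hRNK : T_RNK) : T_CLQ := by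
  intro n v δ hδ
  obtain ⟨μ, hμ1, hμ⟩ : ∃ μ : ℕ, 1 ≤ μ ∧ 4 ≤ δ * μ := by
    refine ⟨⌈4 / δ⌉₊ + 1, by omega, ?_⟩
    have h1 := Nat.le_ceil (4 / δ)
    push_cast
    rw [div_le_iff₀ hδ] at h1
    nlinarith
  choose B Y0 hY0 hB using fun k => clq_one hLCQ hDTD hRNK n v k μ δ hδ hμ1 hμ
  refine ⟨μ ^ n + 2 * v * n + 1, ∑ k ∈ range (n + 1), B k, ∑ k ∈ range (n + 1), Y0 k,
    by omega, ?_, ?_⟩
  · calc (2 : ℝ) ≤ Y0 0 := hY0 0
      _ ≤ ∑ k ∈ range (n + 1), Y0 k :=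
        Finset.single_le_sum (f := Y0) (fun k _ => by linarith [hY0 k])
          (mem_range.2 (Nat.succ_pos n))
  intro Y L g i Q j x₀ S hY hQ hsq hvj hG hi hls hYp hx₀ hJ hS
  obtain ⟨k, hk⟩ : ∃ k, (TI L).card = k + 1 := by
    have := Finset.card_pos.2 ⟨i, hi⟩
    exact ⟨(TI L).card - 1, by omega⟩
  have hkn' : k + 1 ≤ n := by
    have h1 : (TI L).card ≤ n := by
      have := Finset.card_le_univ (TI L)
      rwa [Fintype.card_fin] at this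
    omega
  have hkn : k ∈ range (n + 1) := by
    rw [mem_range]
    omega
  have hYk : Y0 k ≤ Y := le_trans
    (Finset.single_le_sum (f := Y0) (fun k _ => by linarith [hY0 k]) hkn) hY
  have hBk : B k ≤ ∑ k ∈ range (n + 1), B k :=
    Finset.single_le_sum (f := B) (fun k _ => Nat.zero_le _) hkn
  have hs : μ ^ (k + 1) + 2 * v * n ≤ μ ^ n + 2 * v * n + 1 := by
    have := Nat.pow_le_pow_right hμ1 hkn'
    omega
  obtain ⟨G, h1, h2, h3, h4⟩ := hB k _ Y L g i Q j x₀ S hs hYk hQ hsq hvj hG hi hls hYp hx₀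
    hJ hS hk
  exact ⟨G, h1, h2, cls_mono (by linarith [hY0 k]) hBk h3, h4⟩

end Pool.Agent.H79.TFX
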